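import Pool.Agent.Helper1.RK.StC

/-!
Project RK (MP_de00bc_nt), module CCC: the common coordinate without the hypothesis `NoInf`.
-/

set_option autoImplicit false

namespace Pool.Agent.Helper38.RK

open Pool.Agent.Helper1.RK

theorem pCCC (h1 : StIOT) (h2 : StNI) (h3 : StCC1) : StCCC := by
  intro L _ _ _ dl lam u D hC
  obtain ⟨ι, hι⟩ := (h1 L).1
  obtain ⟨ψ, D', hD', hC', hN'⟩ := h2 L ι hι 3 dl lam u D hC
  obtain ⟨φ', ha, hb, hc⟩ := h3 L ι hι dl lam (fun i => ψ (u i)) D' hC' hN'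
  -- transport of the derivations along `ψ.symm`
  have key : ∀ k y, D k (ψ.symm y) = ψ.symm (D' k y) := by
    intro k y
    apply ψ.injective
    rw [← hD', AlgEquiv.apply_symm_apply, AlgEquiv.apply_symm_apply]
  refine ⟨(ψ.symm : RatFunc L →ₐ[L] RatFunc L).comp φ', ?_, ?_, ?_⟩
  · intro l
    have e : ((ψ.symm : RatFunc L →ₐ[L] RatFunc L).comp φ') RatFunc.X =
        ψ.symm (φ' RatFunc.X) := rfl
    rw [e, key, ha l, map_zero]
  · intro k
    refine ⟨?_, ?_⟩
    · intro l hl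
      have e : ((ψ.symm : RatFunc L →ₐ[L] RatFunc L).comp φ') RatFunc.X =
          ψ.symm (φ' RatFunc.X) := rfl
      rw [e, key, ha l, map_zero]
    · intro w hw
      have hw' : ψ w ∈ KK D' k := by
        intro l hl
        rw [hD', hw l hl, map_zero]
      obtain ⟨g, hg⟩ := (hb k).top (ψ w) hw'
      refine ⟨g, ?_⟩
      have e : ((ψ.symm : RatFunc L →ₐ[L] RatFunc L).comp φ') g = ψ.symm (φ' g) := rfl
      rw [e, hg, AlgEquiv.symm_apply_apply]
  · intro k U hU
    refine hc k U ?_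
    have e : ((ψ.symm : RatFunc L →ₐ[L] RatFunc L).comp φ') U = ψ.symm (φ' U) := rfl
    rw [e] at hU
    rw [← hU, AlgEquiv.apply_symm_apply]

end Pool.Agent.Helper38.RK
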