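import Pool.Agent.Helper1.RK.StF

/-!
# Project RK (MP_de00bc_nt), module UMS: separation of variables
-/

set_option autoImplicit false

namespace Pool.Agent.Helper38.RK

open Pool.Agent.Helper1.RK

theorem pUMS (h1 : StALP) (h2 : StBET) : StUMS := by
  classical
  intro F K _ _ _ _ I X pd deg lc J rho a b w hVF hS
  have hex : ∃ i j : Fin 3, ∃ z z' : I, (∀ k, z ∉ J k) ∧ (∀ k, z' ∉ J k) ∧
      pd z (w i) * pd z' (w j) ≠ pd z' (w i) * pd z (w j) := by
    by_contra hno
    apply h2 F K I X pd deg lc J rho a b w hVF hS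
    intro i j z z' hz hz'
    by_contra hne
    exact hno ⟨i, j, z, z', hz, hz', hne⟩
  obtain ⟨i, j, z, z', hz, hz', hne⟩ := hex
  have hij : i ≠ j := by
    rintro rfl
    exact hne (mul_comm _ _)
  exact h1 F K I X pd deg lc J rho a b w hVF hS i j hij z z' (hz i) (hz j) (hz' i) (hz' j) hne

end Pool.Agent.Helper38.RK
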